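import Mathlib

set_option autoImplicit false

namespace Pool.Agent.H840R3.Conn3

open Finset

variable {n : ℕ}

/-- depth first style growth of a connected list avoiding a and b -/
def search (nb : Fin n → Fin 3 → Fin n) (a b : Fin n) : ℕ → List (Fin n) → List (Fin n)
  | 0, l => l
  | k + 1, l =>
    match (List.finRange n).find? (fun v => decide (v ≠ a) && decide (v ≠ b) && !(l.contains v) &&
        (l.contains (nb v 0) || l.contains (nb v 1) || l.contains (nb v 2))) with
    | some v => search nb a b k (v :: l)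
    | none => l

theorem search_inv (nb : Fin n → Fin 3 → Fin n) (G : SimpleGraph (Fin n))
    (hn : ∀ x i, G.Adj x (nb x i)) (S : Set (Fin n)) (a b : Fin n)
    (hS : ∀ v, v ≠ a → v ≠ b → v ∈ S) (r : Fin n) (hr : r ∈ S) :
    ∀ (k : ℕ) (l : List (Fin n)),
      (∀ v ∈ l, ∃ hv : v ∈ S, (G.induce S).Reachable ⟨r, hr⟩ ⟨v, hv⟩) →
      ∀ v ∈ search nb a b k l, ∃ hv : v ∈ S, (G.induce S).Reachable ⟨r, hr⟩ ⟨v, hv⟩ := by
  intro k
  induction k with
  | zero => intro l hl v hv; exact hl v hv
  | succ k ih =>
    intro l hl v hv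
    unfold search at hv
    split at hv
    · rename_i w hw
      apply ih (w :: l) _ v hv
      intro x hx
      rcases List.mem_cons.1 hx with hx | hx
      · subst hx
        have h1 := List.find?_some hw
        simp only [Bool.and_eq_true, decide_eq_true_eq, Bool.or_eq_true, List.contains_iff_mem] at h1
        obtain ⟨⟨⟨h2, h3⟩, _⟩, h4⟩ := h1
        have hxS := hS x h2 h3
        refine ⟨hxS, ?_⟩
        have key : ∀ i, nb x i ∈ l → (G.induce S).Reachable ⟨r, hr⟩ ⟨x, hxS⟩ := by
          intro i hi
          obtain ⟨hv', hre⟩ := hl _ hi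
          refine hre.trans (SimpleGraph.Adj.reachable ?_)
          show G.Adj (nb x i) x
          exact (hn x i).symm
        rcases h4 with (h4 | h4) | h4
        · exact key 0 h4
        · exact key 1 h4
        · exact key 2 h4
      · exact hl x hx
    · exact hl v hv

theorem connected_of_search (nb : Fin n → Fin 3 → Fin n) (G : SimpleGraph (Fin n))
    (hn : ∀ x i, G.Adj x (nb x i)) (k : ℕ) (root : Fin n → Fin n → Fin n)
    (hroot : ∀ a b, root a b ≠ a ∧ root a b ≠ b)
    (hall : ∀ a b v, v ≠ a → v ≠ b → v ∈ search nb a b k [root a b])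
    (a b : Fin n) (S : Set (Fin n)) (hS : ∀ v, v ∈ S ↔ v ≠ a ∧ v ≠ b) :
    (G.induce S).Connected := by
  have hr : root a b ∈ S := (hS _).2 (hroot a b)
  have hinv := search_inv nb G hn S a b (fun v h1 h2 => (hS v).2 ⟨h1, h2⟩) (root a b) hr k
    [root a b] (by
      intro v hv
      simp only [List.mem_singleton] at hv
      subst hv
      exact ⟨hr, SimpleGraph.Reachable.refl _⟩)
  have hre : ∀ x : S, (G.induce S).Reachable ⟨root a b, hr⟩ x := by
    rintro ⟨x, hx⟩
    have hx' := (hS x).1 hx
    obtain ⟨_, h⟩ := hinv x (hall a b x hx'.1 hx'.2)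
    exact h
  have : Nonempty S := ⟨⟨root a b, hr⟩⟩
  exact ⟨fun x y => (hre x).symm.trans (hre y)⟩

/-- From vertex pairs to all vertex sets of at most two vertices; the empty set needs the
connectedness of the whole graph, which follows from two of the deletions. -/
theorem all_small (G : SimpleGraph (Fin n)) (hn3 : 3 < n)
    (h : ∀ (a b : Fin n) (S : Set (Fin n)), (∀ v, v ∈ S ↔ v ≠ a ∧ v ≠ b) →
      (G.induce S).Connected) :
    ∀ S : Finset (Fin n), S.card < 3 → (G.induce ((↑S : Set (Fin n))ᶜ)).Connected := by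
  intro S hS
  have h0 : (0 : ℕ) < n := by omega
  interval_cases hc : S.card
  · -- empty set
    rw [Finset.card_eq_zero] at hc
    subst hc
    -- every vertex is joined to a fixed vertex r
    let r : Fin n := ⟨0, h0⟩
    let q : Fin n := ⟨1, by omega⟩
    have hrq : r ≠ q := by simp [r, q, Fin.ext_iff]
    have key : ∀ a : Fin n, ∀ x y : Fin n, x ≠ a → y ≠ a → G.Reachable x y := by
      intro a x y hx hy
      have hcon := h a a {v | v ≠ a} (by intro v; simp)
      obtain ⟨p⟩ := hcon.preconnected ⟨x, hx⟩ ⟨y, hy⟩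
      exact ⟨p.map (SimpleGraph.Embedding.induce _).toHom⟩
    have hG : ∀ x y : Fin n, G.Reachable x y := by
      intro x y
      -- choose a vertex a different from x and y
      have : ∃ a : Fin n, x ≠ a ∧ y ≠ a := by
        by_contra hcon
        push Not at hcon
        have hsub : (univ : Finset (Fin n)) ⊆ {x, y} := by
          intro a _
          by_cases hxa : x = a
          · simp [hxa]
          · simp [(hcon a hxa)]
        have := Finset.card_le_card hsub
        have h2 : ({x, y} : Finset (Fin n)).card ≤ 2 := Finset.card_le_two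
        simp at this
        omega
      obtain ⟨a, h1, h2⟩ := this
      exact key a x y h1 h2
    have : Nonempty ((↑(∅ : Finset (Fin n)) : Set (Fin n))ᶜ : Set (Fin n)) := ⟨⟨r, by simp⟩⟩
    refine ⟨fun x y => ?_⟩
    obtain ⟨p⟩ := hG x.1 y.1
    let f : G →g (G.induce ((↑(∅ : Finset (Fin n)) : Set (Fin n))ᶜ)) :=
      { toFun := fun v => ⟨v, by simp⟩
        map_rel' := fun h => h }
    exact ⟨p.map f⟩
  · rw [Finset.card_eq_one] at hc
    obtain ⟨a, rfl⟩ := hc
    exact h a a _ (by intro v; simp)
  · rw [Finset.card_eq_two] at hc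
    obtain ⟨a, b, _, rfl⟩ := hc
    exact h a b _ (by intro v; simp)

end Pool.Agent.H840R3.Conn3
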