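import Mathlib

set_option autoImplicit false

namespace Pool.Agent.H840R3.WalkCount

open Finset

variable {V : Type} [Fintype V] [DecidableEq V] {G : SimpleGraph V}

/-- number of darts of p leaving x -/
def out {u v : V} (p : G.Walk u v) (x : V) : ℕ := p.darts.countP (fun d => decide (d.fst = x))

/-- number of darts of p entering x -/
def inn {u v : V} (p : G.Walk u v) (x : V) : ℕ := p.darts.countP (fun d => decide (d.snd = x))

omit [Fintype V] in
theorem out_inn {u v : V} (p : G.Walk u v) (x : V) :
    out p x + (if x = v then 1 else 0) = inn p x + (if x = u then 1 else 0) := by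
  induction p with
  | nil => simp [out, inn]
  | cons h p ih =>
    rename_i a b c
    unfold out inn at *
    simp only [SimpleGraph.Walk.darts_cons, List.countP_cons]
    have e1 : (decide (a = x)) = true ↔ x = a := by simp [eq_comm]
    have e2 : (decide (b = x)) = true ↔ x = b := by simp [eq_comm]
    simp only [e1, e2]
    omega

omit [Fintype V] in
theorem out_eq_inn {u : V} (p : G.Walk u u) (x : V) : out p x = inn p x := by
  have := out_inn p x
  omega

theorem sum_out {u v : V} (p : G.Walk u v) : ∑ x, out p x = p.length := by
  unfold out
  rw [← SimpleGraph.Walk.length_darts]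
  generalize p.darts = l
  induction l with
  | nil => simp
  | cons d l ih =>
    simp only [List.countP_cons, sum_add_distrib, ih, List.length_cons]
    simp

/-- number of times p uses the edge e -/
def use {u v : V} (p : G.Walk u v) (e : Sym2 V) : ℕ := p.darts.countP (fun d => decide (d.edge = e))

omit [Fintype V] in
theorem use_eq_count {u v : V} (p : G.Walk u v) (e : Sym2 V) : use p e = p.edges.count e := by
  unfold use SimpleGraph.Walk.edges List.count
  rw [List.countP_map]
  congr 1

omit [Fintype V] in
theorem use_pos {u v : V} (p : G.Walk u v) (e : Sym2 V) (h : e ∈ p.edges) : 1 ≤ use p e := by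
  rw [use_eq_count]; exact List.count_pos_iff.2 h

omit [Fintype V] in
theorem use_trail {u v : V} (p : G.Walk u v) (hp : p.IsTrail) (e : Sym2 V) :
    use p e = if e ∈ p.edges then 1 else 0 := by
  rw [use_eq_count]
  split_ifs with h
  · exact List.count_eq_one_of_mem hp.edges_nodup h
  · exact List.count_eq_zero_of_not_mem h

omit [Fintype V] in
/-- At a vertex x all whose neighbours are a, b, c. -/
theorem star {u v : V} (p : G.Walk u v) (x a b c : V) (hab : a ≠ b) (hac : a ≠ c) (hbc : b ≠ c)
    (hn : ∀ y, G.Adj x y → y = a ∨ y = b ∨ y = c) :
    out p x + inn p x = use p s(x, a) + use p s(x, b) + use p s(x, c) := by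
  unfold out inn use
  have key : ∀ l : List G.Dart, l.countP (fun d => decide (d.fst = x)) +
      l.countP (fun d => decide (d.snd = x)) = l.countP (fun d => decide (d.edge = s(x, a))) +
      l.countP (fun d => decide (d.edge = s(x, b))) +
      l.countP (fun d => decide (d.edge = s(x, c))) := by
    intro l
    induction l with
    | nil => simp
    | cons d l ih =>
      simp only [List.countP_cons]
      have hd : (if decide (d.fst = x) = true then 1 else 0) +
          (if decide (d.snd = x) = true then 1 else 0) =
          (if decide (d.edge = s(x, a)) = true then 1 else 0) +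
          (if decide (d.edge = s(x, b)) = true then 1 else 0) +
          (if decide (d.edge = s(x, c)) = true then 1 else 0) := by
        obtain ⟨⟨y, z⟩, hyz⟩ := d
        simp only [SimpleGraph.Dart.edge_mk, decide_eq_true_eq, Sym2.eq_iff]
        have hne : y ≠ z := hyz.ne
        by_cases h1 : y = x
        · subst h1
          have h2 := hn z hyz
          have hzy : z ≠ y := fun h => hne h.symm
          rcases h2 with h | h | h
          · subst h; simp [hab, hac, hne, hzy]
          · subst h; simp [hab.symm, hbc, hne, hzy]
          · subst h; simp [hac.symm, hbc.symm, hne, hzy]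
        · by_cases h3 : z = x
          · subst h3
            have h2 := hn y hyz.symm
            rcases h2 with h | h | h
            · subst h; simp [hab, hac, hne]
            · subst h; simp [hab.symm, hbc, hne]
            · subst h; simp [hac.symm, hbc.symm, hne]
          · simp [h1, h3]
      omega
  exact key _

/-- total number of passages of a family through a vertex -/
theorem sum_list_le {α : Type} (F : List α) (f g : α → ℕ) (h : ∀ c ∈ F, f c ≤ g c) :
    (F.map f).sum ≤ (F.map g).sum := by
  induction F with
  | nil => simp
  | cons a F ih =>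
    simp only [List.map_cons, List.sum_cons]
    have h1 := h a (by simp)
    have h2 := ih (fun c hc => h c (by simp [hc]))
    omega

theorem eq_of_sum_list_eq {α : Type} (F : List α) (f g : α → ℕ) (h : ∀ c ∈ F, f c ≤ g c)
    (hs : (F.map f).sum = (F.map g).sum) : ∀ c ∈ F, f c = g c := by
  induction F with
  | nil => simp
  | cons a F ih =>
    simp only [List.map_cons, List.sum_cons] at hs
    have h1 := h a (by simp)
    have h2 := sum_list_le F f g (fun c hc => h c (by simp [hc]))
    intro c hc
    rcases List.mem_cons.1 hc with hc | hc
    · subst hc; omega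
    · exact ih (fun c hc => h c (by simp [hc])) (by omega) c hc

theorem sum_map_add {α : Type} (F : List α) (f g : α → ℕ) :
    (F.map (fun c => f c + g c)).sum = (F.map f).sum + (F.map g).sum := by
  induction F with
  | nil => simp
  | cons a F ih => simp only [List.map_cons, List.sum_cons, ih]; omega

theorem sum_map_fintype {α : Type} (F : List α) (f : α → V → ℕ) :
    (F.map (fun c => ∑ x, f c x)).sum = ∑ x, (F.map (fun c => f c x)).sum := by
  induction F with
  | nil => simp
  | cons a F ih => simp only [List.map_cons, List.sum_cons, ih, sum_add_distrib]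

/-- A family of closed walks of a graph in which every vertex has at least (exactly) three
neighbours, such that every edge is used, has total length at least 2|V|. -/
theorem two_mul_card_le (n0 n1 n2 : V → V) (h01 : ∀ x, n0 x ≠ n1 x) (h02 : ∀ x, n0 x ≠ n2 x)
    (h12 : ∀ x, n1 x ≠ n2 x) (hn : ∀ x y, G.Adj x y ↔ y = n0 x ∨ y = n1 x ∨ y = n2 x)
    (F : List (Σ u : V, G.Walk u u)) (hF : ∀ e ∈ G.edgeSet, ∃ C ∈ F, e ∈ C.2.edges) :
    2 * Fintype.card V ≤ (F.map (fun C => C.2.length)).sum := by
  have h1 : (F.map (fun C => C.2.length)).sum = ∑ x, (F.map (fun C => out C.2 x)).sum := by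
    rw [← sum_map_fintype]
    congr 1
    apply List.map_congr_left
    intro C _
    rw [sum_out]
  rw [h1]
  have h2 : ∀ x, 2 ≤ (F.map (fun C => out C.2 x)).sum := by
    intro x
    have cov : ∀ y, G.Adj x y → 1 ≤ (F.map (fun C => use C.2 s(x, y))).sum := by
      intro y hy
      obtain ⟨C, hC, hCe⟩ := hF s(x, y) (by simpa using hy)
      have := use_pos C.2 _ hCe
      have h3 : use C.2 s(x, y) ≤ (F.map (fun C => use C.2 s(x, y))).sum :=
        List.single_le_sum (by simp) _ (List.mem_map.2 ⟨C, hC, rfl⟩)
      omega
    have c0 := cov (n0 x) ((hn x _).2 (Or.inl rfl))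
    have c1 := cov (n1 x) ((hn x _).2 (Or.inr (Or.inl rfl)))
    have c2 := cov (n2 x) ((hn x _).2 (Or.inr (Or.inr rfl)))
    have h4 : (F.map (fun C => out C.2 x)).sum + (F.map (fun C => out C.2 x)).sum =
        (F.map (fun C => use C.2 s(x, n0 x))).sum + (F.map (fun C => use C.2 s(x, n1 x))).sum +
        (F.map (fun C => use C.2 s(x, n2 x))).sum := by
      rw [← sum_map_add, ← sum_map_add, ← sum_map_add]
      congr 1
      apply List.map_congr_left
      intro C _
      have := star C.2 x (n0 x) (n1 x) (n2 x) (h01 x) (h02 x) (h12 x) (fun y hy => (hn x y).1 hy)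
      rw [← out_eq_inn] at this
      exact this
    omega
  calc 2 * Fintype.card V = ∑ _x : V, 2 := by simp [mul_comm]
    _ ≤ _ := sum_le_sum (fun x _ => h2 x)

end Pool.Agent.H840R3.WalkCount
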